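import Pool.Agent.D0H23.PP.Stm

/-! Project PP (helper23), module 1 AV (helper65): few hits are unlikely. -/

set_option autoImplicit false

namespace Pool.Agent.D0H65.PP

open Finset Filter MeasureTheory ProbabilityTheory
open Pool.Agent.D0H23.PP

theorem geo_le (n r : ℕ) : ∑ j ∈ range r, n ^ j ≤ (n + 1) ^ r := by
  induction r with
  | zero => simp
  | succ r ih =>
    rw [Finset.sum_range_succ, pow_succ]
    rcases Nat.eq_zero_or_pos r with h | h
    · subst h
      simp
    · have h1 : n ^ r ≤ (n + 1) ^ r * n := by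
        obtain ⟨s, rfl⟩ : ∃ s, r = s + 1 := ⟨r - 1, by omega⟩
        rw [pow_succ n s]
        apply Nat.mul_le_mul_right
        exact (Nat.pow_le_pow_left (Nat.le_succ n) s).trans
          (Nat.pow_le_pow_right (Nat.succ_pos n) (Nat.le_succ s))
      calc ∑ j ∈ range r, n ^ j + n ^ r ≤ (n + 1) ^ r + (n + 1) ^ r * n := Nat.add_le_add ih h1
        _ = (n + 1) ^ r * (n + 1) := by ring

theorem card_small (T : Finset ℕ) (r : ℕ) :
    (T.powerset.filter fun U => U.card < r).card ≤ (T.card + 1) ^ r := by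
  classical
  have h1 : (T.powerset.filter fun U => U.card < r) ⊆ (range r).biUnion fun j => T.powersetCard j := by
    intro U hU
    obtain ⟨h1, h2⟩ := Finset.mem_filter.mp hU
    rw [Finset.mem_biUnion]
    exact ⟨U.card, Finset.mem_range.mpr h2,
      Finset.mem_powersetCard.mpr ⟨Finset.mem_powerset.mp h1, rfl⟩⟩
  refine (Finset.card_le_card h1).trans (Finset.card_biUnion_le.trans ?_)
  refine le_trans (Finset.sum_le_sum fun j _ => ?_) (geo_le T.card r)
  rw [Finset.card_powersetCard]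
  exact Nat.choose_le_pow _ _

theorem t_AV : S_AV := by
  classical
  intro Ω _ μ _ Y hY hind C T l hl hT r
  set 𝒰 : Finset (Finset ℕ) := T.powerset.filter fun U => U.card < r with h𝒰
  let E : Finset ℕ → Set Ω := fun U => ⋂ k ∈ C, Y k ⁻¹' ((T \ U : Finset ℕ) : Set ℕ)ᶜ
  have hsub : {ω | (hitp C T (fun k => Y k ω)).card < r} ⊆ ⋃ U ∈ 𝒰, E U := by
    intro ω hω
    simp only [Set.mem_iUnion]
    refine ⟨hitp C T (fun k => Y k ω), ?_, ?_⟩
    · rw [h𝒰, Finset.mem_filter, Finset.mem_powerset]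
      exact ⟨Finset.filter_subset _ _, hω⟩
    · simp only [E, Set.mem_iInter]
      intro k hk hmem
      have h1 := Finset.mem_sdiff.mp (Finset.mem_coe.mp hmem)
      apply h1.2
      unfold hitp
      rw [Finset.mem_filter]
      exact ⟨h1.1, k, hk, rfl⟩
  have hE : ∀ U ∈ 𝒰, μ.real (E U) ≤ Real.exp (-(l * ((T.card : ℝ) - r))) := by
    intro U hU
    obtain ⟨hU1, hU2⟩ := Finset.mem_filter.mp hU
    rw [Finset.mem_powerset] at hU1
    have h1 : μ.real (E U) = ∏ k ∈ C, μ.real (Y k ⁻¹' ((T \ U : Finset ℕ) : Set ℕ)ᶜ) := by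
      have h2 := hind.measure_inter_preimage_eq_mul C
        (sets := fun _ => ((T \ U : Finset ℕ) : Set ℕ)ᶜ) (fun _ _ => MeasurableSet.of_discrete)
      unfold Measure.real
      rw [← ENNReal.toReal_prod, ← h2]
    rw [h1]
    have h3 : ∀ k ∈ C, μ.real (Y k ⁻¹' ((T \ U : Finset ℕ) : Set ℕ)ᶜ) ≤
        Real.exp (-(∑ t ∈ T \ U, μ.real {ω | Y k ω = t})) := by
      intro k _
      have h4 : MeasurableSet (Y k ⁻¹' ((T \ U : Finset ℕ) : Set ℕ)) :=
        hY k MeasurableSet.of_discrete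
      have h5 : Y k ⁻¹' ((T \ U : Finset ℕ) : Set ℕ)ᶜ = (Y k ⁻¹' ((T \ U : Finset ℕ) : Set ℕ))ᶜ := rfl
      rw [h5, probReal_compl_eq_one_sub h4]
      have h6 : ∑ t ∈ T \ U, μ.real {ω | Y k ω = t} = μ.real (Y k ⁻¹' ((T \ U : Finset ℕ) : Set ℕ)) := by
        rw [← sum_measureReal_preimage_singleton]
        · rfl
        · intro t _
          exact hY k (MeasurableSet.singleton t)
      rw [h6]
      exact Real.one_sub_le_exp_neg _
    refine (Finset.prod_le_prod (fun _ _ => measureReal_nonneg) h3).trans ?_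
    rw [← Real.exp_sum]
    apply Real.exp_le_exp.mpr
    rw [Finset.sum_neg_distrib, Finset.sum_comm]
    apply neg_le_neg
    have h7 : l * ((T \ U).card : ℝ) ≤ ∑ t ∈ T \ U, ∑ k ∈ C, μ.real {ω | Y k ω = t} := by
      rw [mul_comm, ← nsmul_eq_mul, ← Finset.sum_const]
      exact Finset.sum_le_sum fun t ht => hT t (Finset.mem_sdiff.mp ht).1
    refine le_trans ?_ h7
    apply mul_le_mul_of_nonneg_left _ hl
    have h8 : (T \ U).card = T.card - U.card := Finset.card_sdiff_of_subset hU1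
    have h9 := Finset.card_le_card hU1
    rw [h8, Nat.cast_sub h9]
    have h10 : (U.card : ℝ) ≤ r := by exact_mod_cast hU2.le
    linarith
  calc μ.real {ω | (hitp C T (fun k => Y k ω)).card < r} ≤ μ.real (⋃ U ∈ 𝒰, E U) :=
        measureReal_mono hsub (measure_ne_top μ _)
    _ ≤ ∑ U ∈ 𝒰, μ.real (E U) := measureReal_biUnion_finset_le _ _
    _ ≤ ∑ U ∈ 𝒰, Real.exp (-(l * ((T.card : ℝ) - r))) := Finset.sum_le_sum hE
    _ = (𝒰.card : ℝ) * Real.exp (-(l * ((T.card : ℝ) - r))) := by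
        rw [Finset.sum_const, nsmul_eq_mul]
    _ ≤ ((T.card : ℝ) + 1) ^ r * Real.exp (-(l * ((T.card : ℝ) - r))) := by
        apply mul_le_mul_of_nonneg_right _ (Real.exp_pos _).le
        exact_mod_cast card_small T r

end Pool.Agent.D0H65.PP
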