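import Pool.Agent.D0H23.PP.Stm

/-! Project PP (helper23), module 8 EX (helper65): the model exists (after `D0H12/PW/Ex.lean`). -/

set_option autoImplicit false

namespace Pool.Agent.D0H65.PP

open Finset Filter MeasureTheory ProbabilityTheory
open Pool.Agent.D0H23.PP

theorem t_EX : S_EX := by
  classical
  intro H δ hδ0 hδ1 hH
  let R : ℕ → Finset ℕ := fun k => (Ico k (k + H k)).filter (fun j => rough δ j ∨ j = k)
  have hne : ∀ k, (R k).Nonempty := by
    intro k
    have := hH k
    exact ⟨k, by rw [Finset.mem_filter, mem_Ico]; exact ⟨by omega, Or.inr rfl⟩⟩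
  have hcard : ∀ k, (R k).card ≤ H k := by
    intro k
    refine (Finset.card_filter_le _ _).trans ?_
    rw [Nat.card_Ico]
    omega
  let law : ℕ → Measure ℕ := fun k => (PMF.uniformOfFinset _ (hne k)).toMeasure
  have hprob : ∀ k, IsProbabilityMeasure (law k) := fun k =>
    PMF.toMeasure.isProbabilityMeasure _
  have hval : ∀ k j, (Measure.infinitePi law).real {ω | ω k = j} = (law k).real {j} := by
    intro k j
    have h2 := (measurePreserving_eval_infinitePi law k).map_eq
    rw [← h2, map_measureReal_apply (measurable_pi_apply k) (measurableSet_singleton j)]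
    rfl
  have hae : ∀ k, ∀ᵐ ω ∂(Measure.infinitePi law), ω k ∈ R k := by
    intro k
    have h1 : (law k) ((R k : Set ℕ)ᶜ) = 0 := by
      simp only [law]
      rw [PMF.toMeasure_apply_eq_zero_iff _ (MeasurableSet.of_discrete), PMF.support_uniformOfFinset]
      exact disjoint_compl_right
    have h2 := (measurePreserving_eval_infinitePi law k).measure_preimage
      (MeasurableSet.of_discrete : MeasurableSet ((R k : Set ℕ)ᶜ)).nullMeasurableSet
    rw [h1] at h2
    rw [ae_iff]
    exact h2
  refine ⟨Measure.infinitePi law, inferInstance, ⟨?_, ?_, ?_, ?_⟩, ?_⟩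
  · intro k
    exact measurable_pi_apply k
  · exact iIndepFun_infinitePi (P := law) (X := fun _ ω => ω) (by fun_prop)
  · intro k
    filter_upwards [hae k] with ω hω
    exact Finset.mem_Ico.mp (Finset.mem_filter.mp hω).1
  · intro k j h1 h2 h3
    have hmem : j ∈ R k := Finset.mem_filter.mpr ⟨Finset.mem_Ico.mpr ⟨h1, h2⟩, Or.inl h3⟩
    change 1 / (H k : ℝ) ≤ (Measure.infinitePi law).real {ω | ω k = j}
    rw [hval]
    unfold Measure.real
    simp only [law]
    rw [PMF.toMeasure_apply_singleton _ _ (measurableSet_singleton j),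
      PMF.uniformOfFinset_apply, if_pos hmem, ENNReal.toReal_inv, ENNReal.toReal_natCast, one_div]
    apply inv_anti₀
    · exact_mod_cast Finset.card_pos.mpr (hne k)
    · exact_mod_cast hcard k
  · have h1 : ∀ᵐ ω ∂(Measure.infinitePi law), ∀ k, ω k ∈ R k := ae_all_iff.mpr hae
    filter_upwards [h1] with ω hω q hq
    rcases (Finset.mem_filter.mp (hω q)).2 with h2 | h2
    · exact h2
    · rw [h2]
      intro p hp hpq
      have h3 : p = q := (Nat.prime_dvd_prime_iff_eq hp hq).mp hpq
      rw [h3]
      exact Real.rpow_lt_self_of_one_lt (by exact_mod_cast hq.one_lt) hδ1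

end Pool.Agent.D0H65.PP
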