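import Pool.Agent.D0H23.PP.Stm

/-! Project PP (helper23), module 2 TWO (helper65): two rounds. -/

set_option autoImplicit false

namespace Pool.Agent.D0H65.PP

open Finset Filter MeasureTheory ProbabilityTheory
open Pool.Agent.D0H23.PP

/-- extension by zero -/
noncomputable def ext0 (C : Finset ℕ) (y : C → ℕ) (k : ℕ) : ℕ := if h : k ∈ C then y ⟨k, h⟩ else 0

theorem hitp_congr (C T : Finset ℕ) (b b' : ℕ → ℕ) (h : ∀ k ∈ C, b k = b' k) :
    hitp C T b = hitp C T b' := by
  classical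
  unfold hitp
  apply Finset.filter_congr
  intro t _
  constructor
  · rintro ⟨k, hk, hk2⟩
    exact ⟨k, hk, by rw [← h k hk]; exact hk2⟩
  · rintro ⟨k, hk, hk2⟩
    exact ⟨k, hk, by rw [h k hk]; exact hk2⟩

theorem hitp_ext (C T : Finset ℕ) (b : ℕ → ℕ) :
    hitp C T (ext0 C fun i => b i) = hitp C T b := by
  apply hitp_congr
  intro k hk
  unfold ext0
  rw [dif_pos hk]

theorem hit2_card (C C' M : Finset ℕ) (b : ℕ → ℕ) (hM : ∀ t ∈ M, 2 ≤ t) :
    (hit2 C C' M b).card = (hitp C' ((hitp C M b).image fun t => t - 2) b).card := by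
  classical
  symm
  have h1 : hitp C' ((hitp C M b).image fun t => t - 2) b = (hit2 C C' M b).image fun t => t - 2 := by
    ext x
    unfold hitp hit2
    simp only [Finset.mem_filter, Finset.mem_image]
    constructor
    · rintro ⟨⟨t, ⟨h1, h2⟩, rfl⟩, h3⟩
      exact ⟨t, ⟨h1, h2, h3⟩, rfl⟩
    · rintro ⟨t, ⟨h1, h2, h3⟩, rfl⟩
      exact ⟨⟨t, ⟨h1, h2⟩, rfl⟩, h3⟩
  rw [h1]
  apply Finset.card_image_of_injOn
  intro x hx y hy hxy
  have h2 := hM x (Finset.mem_filter.mp (Finset.mem_coe.mp hx)).1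
  have h3 := hM y (Finset.mem_filter.mp (Finset.mem_coe.mp hy)).1
  simp only at hxy
  omega

theorem t_TWO : S_AV → S_TWO := by
  classical
  intro hAV Ω _ μ _ Y hY hind C C' M l hl hCC hM r s hrs hsM
  have hM2 : ∀ t ∈ M, 2 ≤ t := fun t ht => (hM t ht).1
  let f : Ω → Finset ℕ := fun ω => hitp C M (fun k => Y k ω)
  let F : Finset ℕ → Set Ω := fun U => {ω | (hitp C' (U.image fun t => t - 2) (fun k => Y k ω)).card < r}
  set 𝒰 : Finset (Finset ℕ) := M.powerset.filter fun U => s ≤ U.card with h𝒰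
  have hsub : {ω | (hit2 C C' M (fun k => Y k ω)).card < r} ⊆
      {ω | (hitp C M (fun k => Y k ω)).card < s} ∪ ⋃ U ∈ 𝒰, (f ⁻¹' {U} ∩ F U) := by
    intro ω hω
    by_cases h : (hitp C M (fun k => Y k ω)).card < s
    · exact Or.inl h
    · right
      simp only [Set.mem_iUnion]
      refine ⟨f ω, ?_, rfl, ?_⟩
      · rw [h𝒰, Finset.mem_filter, Finset.mem_powerset]
        exact ⟨Finset.filter_subset _ _, by push Not at h; exact h⟩
      · change (hitp C' ((hitp C M (fun k => Y k ω)).image fun t => t - 2) (fun k => Y k ω)).card < r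
        rw [← hit2_card C C' M _ hM2]
        exact hω
  -- the two groups are independent
  have hi := hind.indepFun_finset C C' hCC hY
  have hpre : ∀ U, f ⁻¹' {U} = (fun a (i : C) => Y i a) ⁻¹' {y | hitp C M (ext0 C y) = U} := by
    intro U
    ext ω
    simp only [Set.mem_preimage, Set.mem_singleton_iff, Set.mem_ofPred_eq, f]
    rw [hitp_ext C M (fun k => Y k ω)]
  have hpre' : ∀ U, F U = (fun a (i : C') => Y i a) ⁻¹'
      {y | (hitp C' (U.image fun t => t - 2) (ext0 C' y)).card < r} := by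
    intro U
    ext ω
    simp only [Set.mem_preimage, Set.mem_ofPred_eq, F]
    rw [hitp_ext C' _ (fun k => Y k ω)]
  have hmC : ∀ S : Set (C → ℕ), MeasurableSet S := fun S => (Set.to_countable S).measurableSet
  have hmC' : ∀ S : Set (C' → ℕ), MeasurableSet S := fun S => (Set.to_countable S).measurableSet
  have hYC : Measurable (fun a (i : C) => Y i a) := measurable_pi_lambda _ fun i => hY i
  have hfm : ∀ U, MeasurableSet (f ⁻¹' {U}) := by
    intro U
    rw [hpre]
    exact hYC (hmC _)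
  have hprod : ∀ U, μ.real (f ⁻¹' {U} ∩ F U) = μ.real (f ⁻¹' {U}) * μ.real (F U) := by
    intro U
    have h1 := hi.measure_inter_preimage_eq_mul _ _ (hmC {y | hitp C M (ext0 C y) = U})
      (hmC' {y | (hitp C' (U.image fun t => t - 2) (ext0 C' y)).card < r})
    rw [← hpre, ← hpre'] at h1
    unfold Measure.real
    rw [h1, ENNReal.toReal_mul]
  set D : ℝ := ((M.card : ℝ) + 1) ^ r * Real.exp (-(l * ((s : ℝ) - r))) with hD
  have hD0 : 0 ≤ D := by positivity
  have hF : ∀ U ∈ 𝒰, μ.real (F U) ≤ D := by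
    intro U hU
    obtain ⟨hU1, hU2⟩ := Finset.mem_filter.mp hU
    rw [Finset.mem_powerset] at hU1
    have h1 := hAV Ω μ Y hY hind C' (U.image fun t => t - 2) l hl (by
      intro t ht
      obtain ⟨t', ht', rfl⟩ := Finset.mem_image.mp ht
      exact (hM t' (hU1 ht')).2.2) r
    have h2 : (U.image fun t => t - 2).card = U.card := by
      apply Finset.card_image_of_injOn
      intro x hx y hy hxy
      have h2 := hM2 x (hU1 hx)
      have h3 := hM2 y (hU1 hy)
      simp only at hxy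
      omega
    rw [h2] at h1
    refine h1.trans ?_
    rw [hD]
    have h3 : (U.card : ℝ) ≤ M.card := by exact_mod_cast Finset.card_le_card hU1
    have h4 : (s : ℝ) ≤ U.card := by exact_mod_cast hU2
    apply mul_le_mul _ _ (Real.exp_pos _).le (by positivity)
    · exact pow_le_pow_left₀ (by positivity) (by linarith) r
    · apply Real.exp_le_exp.mpr
      apply neg_le_neg
      apply mul_le_mul_of_nonneg_left _ hl
      linarith
  have hsum : ∑ U ∈ 𝒰, μ.real (f ⁻¹' {U}) ≤ 1 := by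
    rw [sum_measureReal_preimage_singleton 𝒰 (fun U _ => hfm U)]
    exact measureReal_le_one
  have h1st := hAV Ω μ Y hY hind C M l hl (fun t ht => (hM t ht).2.1) s
  calc μ.real {ω | (hit2 C C' M (fun k => Y k ω)).card < r}
      ≤ μ.real ({ω | (hitp C M (fun k => Y k ω)).card < s} ∪ ⋃ U ∈ 𝒰, (f ⁻¹' {U} ∩ F U)) :=
        measureReal_mono hsub (measure_ne_top μ _)
    _ ≤ μ.real {ω | (hitp C M (fun k => Y k ω)).card < s} +
        μ.real (⋃ U ∈ 𝒰, (f ⁻¹' {U} ∩ F U)) := measureReal_union_le _ _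
    _ ≤ ((M.card : ℝ) + 1) ^ s * Real.exp (-(l * ((M.card : ℝ) - s))) + D := by
        apply add_le_add h1st
        calc μ.real (⋃ U ∈ 𝒰, (f ⁻¹' {U} ∩ F U)) ≤ ∑ U ∈ 𝒰, μ.real (f ⁻¹' {U} ∩ F U) :=
              measureReal_biUnion_finset_le _ _
          _ = ∑ U ∈ 𝒰, μ.real (f ⁻¹' {U}) * μ.real (F U) :=
              Finset.sum_congr rfl fun U _ => hprod U
          _ ≤ ∑ U ∈ 𝒰, μ.real (f ⁻¹' {U}) * D :=
              Finset.sum_le_sum fun U hU => mul_le_mul_of_nonneg_left (hF U hU) measureReal_nonneg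
          _ = (∑ U ∈ 𝒰, μ.real (f ⁻¹' {U})) * D := by rw [Finset.sum_mul]
          _ ≤ 1 * D := mul_le_mul_of_nonneg_right hsum hD0
          _ = D := one_mul D

end Pool.Agent.D0H65.PP
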