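import Pool.Agent.D0H23.PP.Stm

/-! Project PP (helper23), module 5 VAL (helper65). -/

set_option autoImplicit false

namespace Pool.Agent.D0H65.PP

open Finset Filter
open Pool.Agent.D0H23.PP

theorem pf_bounds (X : Fin 4 → ℤ) (n : ℕ) (h : ∑ i, X i ^ 2 = n) :
    (n : ℤ) ≤ pf X ∧ pf X ≤ 7 * n := by
  rw [Fin.sum_univ_four] at h
  unfold pf
  have h0 := sq_nonneg (X 0)
  have h1 := sq_nonneg (X 1)
  have h2 := sq_nonneg (X 2)
  have h3 := sq_nonneg (X 3)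
  constructor <;> linarith

theorem t_VAL : S_UNI → S_MULT → S_VAL := by
  intro hU hM
  classical
  obtain ⟨δ, hδ, c, hc, hS⟩ := hU (1 / 24) (by norm_num)
  obtain ⟨C, hC, hM⟩ := hM
  refine ⟨min (δ / 2) (1 / 2), lt_min (by linarith) (by norm_num),
    lt_of_le_of_lt (min_le_right _ _) (by norm_num), ?_⟩
  set δ' := min (δ / 2) (1 / 2) with hδ'
  have hδ0 : 0 < δ' := lt_min (by linarith) (by norm_num)
  have hδ2 : 2 * δ' ≤ δ := by
    have := min_le_left (δ / 2) (1 / 2)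
    linarith
  have hlim : ∀ᶠ n : ℕ in atTop, C / c ≤ (n : ℝ) ^ (1 / 12 : ℝ) :=
    ((tendsto_rpow_atTop (by norm_num : (0 : ℝ) < 1 / 12)).comp
      tendsto_natCast_atTop_atTop).eventually_ge_atTop _
  filter_upwards [hlim, eventually_ge_atTop 7] with n hn hn7 hodd
  obtain ⟨S, hS1, hS2⟩ := hS n hodd
  have hn1 : (1 : ℝ) ≤ n := by exact_mod_cast (by omega : 1 ≤ n)
  have hn0 : (0 : ℝ) < n := by linarith
  have hb : ∀ X ∈ S, (n : ℤ) ≤ pf X ∧ pf X ≤ 7 * n := fun X hX => pf_bounds X n (hS2 X hX).1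
  have hcast : ∀ X ∈ S, (((pf X).toNat : ℕ) : ℤ) = pf X := by
    intro X hX
    apply Int.toNat_of_nonneg
    have := (hb X hX).1
    omega
  refine ⟨S.image fun X => (pf X).toNat, ?_, ?_, ?_⟩
  · -- many values
    have h1 : (S.card : ℝ) ≤ ((S.image fun X => (pf X).toNat).card : ℝ) *
        (C * (n : ℝ) ^ (13 / 24 : ℝ)) := by
      rw [Finset.card_eq_sum_card_image (fun X => (pf X).toNat) S]
      push_cast
      rw [← nsmul_eq_mul, ← Finset.sum_const]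
      refine Finset.sum_le_sum fun m _ => ?_
      refine hM n (by omega) m _ ?_
      intro X hX
      obtain ⟨h1, h2⟩ := Finset.mem_filter.mp hX
      refine ⟨(hS2 X h1).1, ?_⟩
      rw [← hcast X h1, h2]
    have h2 := hS1.trans h1
    have h3 : c * (n : ℝ) ^ (1 - 1 / 24 : ℝ) =
        (c * (n : ℝ) ^ (1 / 12 : ℝ)) * (n : ℝ) ^ (1 / 3 : ℝ) * (n : ℝ) ^ (13 / 24 : ℝ) := by
      have e1 : (n : ℝ) ^ (1 - 1 / 24 : ℝ) =
          (n : ℝ) ^ (1 / 12 : ℝ) * (n : ℝ) ^ (1 / 3 : ℝ) * (n : ℝ) ^ (13 / 24 : ℝ) := by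
        rw [← Real.rpow_add hn0, ← Real.rpow_add hn0]
        norm_num
      rw [e1]
      ring
    rw [h3] at h2
    have h4 : (0 : ℝ) < (n : ℝ) ^ (13 / 24 : ℝ) := Real.rpow_pos_of_pos hn0 _
    have h5 : (0 : ℝ) < (n : ℝ) ^ (1 / 3 : ℝ) := Real.rpow_pos_of_pos hn0 _
    have h6 : C ≤ c * (n : ℝ) ^ (1 / 12 : ℝ) := by
      rw [div_le_iff₀ hc] at hn
      linarith
    have h7 : C * (n : ℝ) ^ (1 / 3 : ℝ) * (n : ℝ) ^ (13 / 24 : ℝ) ≤
        ((S.image fun X => (pf X).toNat).card : ℝ) * (C * (n : ℝ) ^ (13 / 24 : ℝ)) :=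
      (mul_le_mul_of_nonneg_right (mul_le_mul_of_nonneg_right h6 h5.le) h4.le).trans h2
    have h8 : (n : ℝ) ^ (1 / 3 : ℝ) * (C * (n : ℝ) ^ (13 / 24 : ℝ)) ≤
        ((S.image fun X => (pf X).toNat).card : ℝ) * (C * (n : ℝ) ^ (13 / 24 : ℝ)) := by
      linarith
    exact le_of_mul_le_mul_right h8 (mul_pos hC h4)
  · have h1 : (S.image fun X => (pf X).toNat) ⊆ Finset.Icc n (7 * n) := by
      intro m hm
      obtain ⟨X, hX, rfl⟩ := Finset.mem_image.mp hm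
      rw [Finset.mem_Icc]
      have h1 := hb X hX
      have h2 := hcast X hX
      omega
    refine (Finset.card_le_card h1).trans ?_
    rw [Nat.card_Icc]
    omega
  · intro m hm
    obtain ⟨X, hX, rfl⟩ := Finset.mem_image.mp hm
    have h1 := hb X hX
    have h2 := hcast X hX
    obtain ⟨e1, e2, e3, e4⟩ := hS2 X hX
    set m := (pf X).toNat with hm'
    have hm1 : n ≤ m := by omega
    have hm7 : m ≤ 7 * n := by omega
    have hpow : ∀ j : ℕ, j ≤ 7 * n → (j : ℝ) ^ δ' ≤ (n : ℝ) ^ δ := by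
      intro j hj
      have g1 : (j : ℝ) ≤ (n : ℝ) ^ (2 : ℝ) := by
        rw [Real.rpow_two]
        have : j ≤ n ^ 2 := by nlinarith
        exact_mod_cast this
      calc (j : ℝ) ^ δ' ≤ ((n : ℝ) ^ (2 : ℝ)) ^ δ' :=
            Real.rpow_le_rpow (Nat.cast_nonneg j) g1 hδ0.le
        _ = (n : ℝ) ^ (2 * δ') := by rw [← Real.rpow_mul hn0.le]
        _ ≤ (n : ℝ) ^ δ := Real.rpow_le_rpow_of_exponent_le hn1 hδ2
    refine ⟨hm1, hm7, ?_, ?_, X, e1, h2.symm⟩
    · intro q hq hqm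
      refine (hpow m hm7).trans_lt (e2 q hq ?_)
      apply Dvd.dvd.mul_right
      rw [← h2]
      exact_mod_cast hqm
    · intro q hq hqm
      refine (hpow (m - 2) (by omega)).trans_lt (e2 q hq ?_)
      apply Dvd.dvd.mul_left
      have h3 : ((m - 2 : ℕ) : ℤ) = pf X - 2 := by
        rw [Nat.cast_sub (by omega), h2]
        rfl
      rw [← h3]
      exact_mod_cast hqm

end Pool.Agent.D0H65.PP
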